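import Pool.Agent.AGU.Stmts

/-!
# AGU, row GNW: the Newton step

`AGU.TF.ThH.local_sup` on the subtype of the running sites, with the clock `s / (1 + ε/c₀)`.
-/

set_option autoImplicit false

open scoped BigOperators Matrix

noncomputable section

namespace Pool.Agent.AGU.H19

open Pool.Agent.AGU.TF

section

variable {X : Type} [Fintype X] [DecidableEq X]

/-- the Ward identity on the diagonal -/
theorem ward_diag {G : Matrix X X ℂ} {k : X → ℝ} (h : WK G k) (a : X) :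
    ∑ b, k b * ‖G a b‖ ^ 2 = (G a a).im := by
  have h1 := h.hw a a
  have h2 : ∀ b, (k b : ℂ) * (starRingEnd ℂ) (G a b) * G b a = ((k b * ‖G a b‖ ^ 2 : ℝ) : ℂ) := by
    intro b
    rw [h.hs b a, mul_assoc, mul_comm ((starRingEnd ℂ) (G a b)) (G a b), Complex.mul_conj,
      Complex.normSq_eq_norm_sq]
    push_cast
    ring
  rw [Finset.sum_congr rfl fun b _ => h2 b, ← Complex.ofReal_sum] at h1
  exact Complex.ofReal_injective h1

/-- the sum over the running sites -/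
theorem ward_run {G : Matrix X X ℂ} {k : X → ℝ} {R : Finset X} {m : X → ℂ} {s ε c c₀ C₀ : ℝ}
    (H : Run G k R m s ε c c₀ C₀) (a : X) (ha : a ∈ R) :
    ∑ b ∈ R, s * ‖G a b‖ ^ 2 * (m b).im ≤ (m a).im + ε := by
  have h1 := ward_diag H.hw a
  have h2 : ∑ b ∈ R, s * ‖G a b‖ ^ 2 * (m b).im ≤ ∑ b, k b * ‖G a b‖ ^ 2 := by
    calc ∑ b ∈ R, s * ‖G a b‖ ^ 2 * (m b).im ≤ ∑ b ∈ R, k b * ‖G a b‖ ^ 2 := by
          refine Finset.sum_le_sum fun b hb => ?_
          have h3 := mul_le_mul_of_nonneg_right (H.hk b hb) (sq_nonneg ‖G a b‖)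
          linarith
      _ ≤ ∑ b, k b * ‖G a b‖ ^ 2 :=
          Finset.sum_le_sum_of_subset_of_nonneg (Finset.subset_univ _) fun b _ _ =>
            mul_nonneg (H.hw.hk b).le (sq_nonneg _)
  have h4 : (G a a - m a).im ≤ ε :=
    (le_abs_self _).trans ((Complex.abs_im_le_norm _).trans (H.hμ a ha))
  rw [Complex.sub_im] at h4
  linarith

/-- extension by zero -/
def ext0 (R : Finset X) (v : R → ℂ) : X → ℂ := fun a => if h : a ∈ R then v ⟨a, h⟩ else 0

omit [Fintype X] in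
theorem ext0_coe (R : Finset X) (v : R → ℂ) (a : R) : ext0 R v a = v a := by
  unfold ext0
  rw [dif_pos a.2]

/-- the restricted resolvent -/
def res (R : Finset X) (G : Matrix X X ℂ) : Matrix R R ℂ := Matrix.of fun a b => G a b

omit [Fintype X] in
theorem ys_mulVec (R : Finset X) (G : Matrix X X ℂ) (r : ℝ) (v : R → ℂ) (a : R) :
    (Ys (res R G) (fun _ => r) *ᵥ v) a = (r : ℂ) ^ 2 * ∑ b ∈ R, G a b ^ 2 * ext0 R v b := by
  rw [Matrix.mulVec, dotProduct, ← Finset.sum_coe_sort R fun b => G a b ^ 2 * ext0 R v b,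
    Finset.mul_sum]
  refine Finset.sum_congr rfl fun b _ => ?_
  rw [ext0_coe, Ys_apply]
  change (r : ℂ) * G a b ^ 2 * (r : ℂ) * v b = _
  ring

/-- the clock of the comparison -/
theorem thH_run {G : Matrix X X ℂ} {k : X → ℝ} {R : Finset X} {m : X → ℂ} {s ε c c₀ C₀ : ℝ}
    (H : Run G k R m s ε c c₀ C₀) (r : ℝ) (hr : 0 < r) (hr2 : r ^ 2 * (1 + ε / c₀) = s) :
    ThH (res R G) (fun _ => r) (fun a : R => (m a).im) c := by
  obtain ⟨hc, hc1, hc0, hc01, hC0⟩ := H.hc
  have hε0 : 0 ≤ ε / c₀ := div_nonneg H.hε.1 hc0.le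
  have hpos : 0 < 1 + ε / c₀ := by linarith
  refine ⟨fun a b => H.hw.hs a b, fun _ => hr, fun a => hc0.trans_le (H.hm a a.2).1, ?_, ?_⟩
  · intro a
    have h1 := ward_run H a a.2
    have h2 : ∑ b : R, r ^ 2 * ‖res R G a b‖ ^ 2 * (m b).im =
        ∑ b ∈ R, r ^ 2 * ‖G a b‖ ^ 2 * (m b).im :=
      Finset.sum_coe_sort R fun b => r ^ 2 * ‖G a b‖ ^ 2 * (m b).im
    rw [h2]
    have h3 : ∑ b ∈ R, s * ‖G a b‖ ^ 2 * (m b).im =
        (1 + ε / c₀) * ∑ b ∈ R, r ^ 2 * ‖G a b‖ ^ 2 * (m b).im := by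
      rw [Finset.mul_sum]
      refine Finset.sum_congr rfl fun b _ => ?_
      rw [← hr2]
      ring
    rw [h3] at h1
    have h4 : (m a).im + ε ≤ (1 + ε / c₀) * (m a).im := by
      have h5 := (H.hm a a.2).1
      have h6 : ε / c₀ * c₀ = ε := div_mul_cancel₀ _ hc0.ne'
      have h7 := mul_le_mul_of_nonneg_left h5 hε0
      linarith
    exact le_of_mul_le_mul_left (h1.trans h4) hpos
  · intro u
    have h1 := H.hY (ext0 R u)
    have hA : ∑ a ∈ R, ‖ext0 R u a‖ ^ 2 = ∑ a, ‖u a‖ ^ 2 := by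
      rw [← Finset.sum_coe_sort R fun a => ‖ext0 R u a‖ ^ 2]
      exact Finset.sum_congr rfl fun a _ => by rw [ext0_coe]
    set S : ℂ := ∑ a ∈ R, (starRingEnd ℂ) (ext0 R u a) *
      ∑ b ∈ R, s * G a b ^ 2 * ext0 R u b with hS
    have hS2 : S = (s : ℂ) * ∑ a : R, (starRingEnd ℂ) (u a) *
        ∑ b ∈ R, G a b ^ 2 * ext0 R u b := by
      rw [hS, ← Finset.sum_coe_sort R fun a => (starRingEnd ℂ) (ext0 R u a) *
        ∑ b ∈ R, s * G a b ^ 2 * ext0 R u b, Finset.mul_sum]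
      refine Finset.sum_congr rfl fun a _ => ?_
      rw [ext0_coe]
      have : ∑ b ∈ R, (s : ℂ) * G a b ^ 2 * ext0 R u b =
          (s : ℂ) * ∑ b ∈ R, G a b ^ 2 * ext0 R u b := by
        rw [Finset.mul_sum]
        exact Finset.sum_congr rfl fun b _ => by ring
      rw [this]
      ring
    have hT : ∑ a : R, ((starRingEnd ℂ) (u a) * (u a - (Ys (res R G) (fun _ => r) *ᵥ u) a)).re =
        (∑ a, ‖u a‖ ^ 2) - r ^ 2 * (∑ a : R, (starRingEnd ℂ) (u a) *
          ∑ b ∈ R, G a b ^ 2 * ext0 R u b).re := by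
      rw [Complex.re_sum, Finset.mul_sum, ← Finset.sum_sub_distrib]
      refine Finset.sum_congr rfl fun a _ => ?_
      rw [ys_mulVec, mul_sub, Complex.sub_re]
      congr 1
      · rw [mul_comm, Complex.mul_conj, Complex.normSq_eq_norm_sq, Complex.ofReal_re]
      · rw [mul_left_comm, ← Complex.ofReal_pow, Complex.re_ofReal_mul]
    rw [hT]
    rw [hS2, Complex.re_ofReal_mul, hA] at h1
    set A := ∑ a, ‖u a‖ ^ 2 with hAdef
    set Q := (∑ a : R, (starRingEnd ℂ) (u a) * ∑ b ∈ R, G a b ^ 2 * ext0 R u b).re with hQ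
    have hA0 : 0 ≤ A := Finset.sum_nonneg fun a _ => sq_nonneg _
    have h2 : (1 + ε / c₀) * (r ^ 2 * Q) ≤ (1 + ε / c₀) * ((1 - c) * A) := by
      have h3 : (1 + ε / c₀) * (r ^ 2 * Q) = s * Q := by
        rw [← hr2]
        ring
      rw [h3]
      have h4 : 0 ≤ ε / c₀ * ((1 - c) * A) :=
        mul_nonneg hε0 (mul_nonneg (by linarith) hA0)
      linarith
    have h5 := le_of_mul_le_mul_left h2 hpos
    linarith

end

theorem gnw : GnwStmt := by
  intro c c₀ C₀ hc hc0 hC0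
  set C₁ : ℝ := (1 / c + 1) * (C₀ / c₀) + 3 / c with hC₁
  have hC0p : 0 < C₀ := by linarith
  have hC₁0 : 0 < C₁ := by positivity
  refine ⟨1 + C₁ + C₁ * ((C₀ + 1) / c₀ ^ 2), ?_, ?_⟩
  · have : 0 < C₁ * ((C₀ + 1) / c₀ ^ 2) := by positivity
    linarith
  intro X _ _ G k R m s ε e B N H hN he heo hct hB hBe
  obtain ⟨-, hc1, -, hc01, -⟩ := H.hc
  have hε := H.hε.1
  have hlog : 0 ≤ Real.log N := Real.log_nonneg hN
  have hN0 : 0 < N := by linarith
  have hq : 0 < 1 + ε / c₀ := by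
    have := div_nonneg hε hc0.le
    linarith
  set r : ℝ := Real.sqrt (s / (1 + ε / c₀)) with hr
  have hrp : 0 < r := Real.sqrt_pos.2 (div_pos H.hs hq)
  have hr2 : r ^ 2 * (1 + ε / c₀) = s := by
    rw [hr, Real.sq_sqrt (div_pos H.hs hq).le]
    exact div_mul_cancel₀ _ hq.ne'
  have hrs : r ^ 2 ≤ s := by
    rw [← hr2]
    have h1 : 0 ≤ ε / c₀ := div_nonneg hε hc0.le
    have h2 : 0 ≤ r ^ 2 * (ε / c₀) := by positivity
    linarith
  have HT := thH_run H r hrp hr2
  obtain ⟨u, hu, -⟩ := HT.surj hc fun a : R => (r : ℂ) * (G a a - m a)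
  have hrc : (r : ℂ) ≠ 0 := by exact_mod_cast hrp.ne'
  set δ : X → ℂ := fun a => ext0 R u a / r with hδ
  -- the sup bound
  have hsup : ∀ o : R, ‖u o‖ ≤ r * (C₁ * (1 + Real.log N) * ε) := by
    intro o
    set J : ℕ := ⌈2 / c * Real.log N⌉₊ with hJ
    have hJ1 : 2 / c * Real.log N ≤ J := Nat.le_ceil _
    have hJ2 : (J : ℝ) ≤ 2 / c * Real.log N + 1 :=
      (Nat.ceil_lt_add_one (by positivity)).le
    have hmu : ∀ b : R, ‖(r : ℂ) * (G b b - m b)‖ ≤ r * ε := by
      intro b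
      rw [norm_mul, Complex.norm_real, Real.norm_of_nonneg hrp.le]
      exact mul_le_mul_of_nonneg_left (H.hμ b b.2) hrp.le
    have h1 := HT.local_sup hc (by linarith) (fun a : R => e o a) (fun a => he o a) (c / 4)
      (by linarith) (fun a => by
        have h2 := hct o o.2 a a.2
        refine le_trans ?_ h2
        rw [← Finset.sum_coe_sort R fun b => s * ‖G a b‖ ^ 2 *
          (|1 - e o a / e o b| ⊔ |1 - e o b / e o a|) * (m b).im]
        refine Finset.sum_le_sum fun b _ => ?_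
        refine mul_le_mul_of_nonneg_right ?_ (hc0.le.trans (H.hm b b.2).1)
        refine mul_le_mul_of_nonneg_right ?_ (le_max_of_le_left (abs_nonneg _))
        exact mul_le_mul_of_nonneg_right hrs (sq_nonneg _)) o (heo o)
      (Finset.univ.filter fun b : R => (b : X) ∈ B o) u _ hu (ε / c₀)
      (div_nonneg hε hc0.le) (fun a _ => by
        refine (hmu a).trans ?_
        have h3 := (H.hm a a.2).1
        have h4 : ε / c₀ * (r * c₀) = r * ε := by
          field_simp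
        have h5 : ε / c₀ * (r * c₀) ≤ ε / c₀ * (r * (m a).im) :=
          mul_le_mul_of_nonneg_left (mul_le_mul_of_nonneg_left h3 hrp.le)
            (div_nonneg hε hc0.le)
        linarith) J
    have hsum1 : ∑ b ∈ Finset.univ.filter (fun b : R => (b : X) ∈ B o),
        ‖(r : ℂ) * (G b b - m b)‖ ^ 2 ≤ N * (r * ε) ^ 2 := by
      calc ∑ b ∈ Finset.univ.filter (fun b : R => (b : X) ∈ B o),
            ‖(r : ℂ) * (G b b - m b)‖ ^ 2
          ≤ ∑ b ∈ Finset.univ.filter (fun b : R => (b : X) ∈ B o), (r * ε) ^ 2 :=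
            Finset.sum_le_sum fun b _ => pow_le_pow_left₀ (norm_nonneg _) (hmu b) 2
        _ = ((Finset.univ.filter fun b : R => (b : X) ∈ B o).card : ℝ) * (r * ε) ^ 2 := by
            rw [Finset.sum_const, nsmul_eq_mul]
        _ ≤ N * (r * ε) ^ 2 := by
            refine mul_le_mul_of_nonneg_right ?_ (sq_nonneg _)
            refine le_trans ?_ (hB o)
            have h6 : (Finset.univ.filter fun b : R => (b : X) ∈ B o).card ≤ (B o).card := by
              refine Finset.card_le_card_of_injOn (fun b => (b : X)) ?_ ?_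
              · intro b hb
                have hb' := (Finset.mem_filter.1 (Finset.mem_coe.1 hb)).2
                exact Finset.mem_coe.2 hb'
              · intro b _ b' _ hbb
                exact Subtype.ext hbb
            exact_mod_cast h6
    have hsum2 : ∑ b ∈ (Finset.univ.filter fun b : R => (b : X) ∈ B o)ᶜ,
        e o b ^ 2 * ‖(r : ℂ) * (G b b - m b)‖ ^ 2 ≤ (r * ε) ^ 2 := by
      have h7 : ∑ b ∈ (Finset.univ.filter fun b : R => (b : X) ∈ B o)ᶜ, e o b ^ 2 ≤ 1 := by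
        refine le_trans (le_of_eq ?_) (hBe o)
        refine Finset.sum_bij (fun b _ => (b : X)) ?_ ?_ ?_ ?_
        · intro b hb
          rw [Finset.mem_compl, Finset.mem_filter, not_and] at hb
          exact Finset.mem_sdiff.2 ⟨b.2, hb (Finset.mem_univ _)⟩
        · intro b _ b' _ hbb
          exact Subtype.ext hbb
        · intro b hb
          rw [Finset.mem_sdiff] at hb
          refine ⟨⟨b, hb.1⟩, ?_, rfl⟩
          rw [Finset.mem_compl, Finset.mem_filter, not_and]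
          exact fun _ => hb.2
        · intro b _
          rfl
      calc ∑ b ∈ (Finset.univ.filter fun b : R => (b : X) ∈ B o)ᶜ,
            e o b ^ 2 * ‖(r : ℂ) * (G b b - m b)‖ ^ 2
          ≤ ∑ b ∈ (Finset.univ.filter fun b : R => (b : X) ∈ B o)ᶜ,
            e o b ^ 2 * (r * ε) ^ 2 :=
            Finset.sum_le_sum fun b _ => mul_le_mul_of_nonneg_left
              (pow_le_pow_left₀ (norm_nonneg _) (hmu b) 2) (sq_nonneg _)
        _ = (∑ b ∈ (Finset.univ.filter fun b : R => (b : X) ∈ B o)ᶜ, e o b ^ 2) *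
            (r * ε) ^ 2 := by rw [Finset.sum_mul]
        _ ≤ 1 * (r * ε) ^ 2 := mul_le_mul_of_nonneg_right h7 (sq_nonneg _)
        _ = (r * ε) ^ 2 := one_mul _
    have hpow : (1 - c / 2) ^ J * N ≤ 1 := by
      have h8 : (1 - c / 2) ≤ Real.exp (-(c / 2)) := by
        have := Real.add_one_le_exp (-(c / 2))
        linarith
      have h9 : (1 - c / 2) ^ J ≤ Real.exp (-(c / 2)) ^ J :=
        pow_le_pow_left₀ (by linarith) h8 J
      have h10 : Real.exp (-(c / 2)) ^ J = Real.exp (-(c / 2) * J) := by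
        rw [← Real.exp_nat_mul]
        congr 1
        ring
      have h11 : -(c / 2) * J ≤ - Real.log N := by
        have h12 : c / 2 * (2 / c * Real.log N) = Real.log N := by
          field_simp
        have h13 : c / 2 * (2 / c * Real.log N) ≤ c / 2 * J :=
          mul_le_mul_of_nonneg_left hJ1 (by linarith)
        linarith
      have h14 : (1 - c / 2) ^ J ≤ N⁻¹ := by
        rw [h10] at h9
        refine h9.trans ((Real.exp_le_exp.2 h11).trans (le_of_eq ?_))
        rw [Real.exp_neg, Real.exp_log hN0]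
      calc (1 - c / 2) ^ J * N ≤ N⁻¹ * N := mul_le_mul_of_nonneg_right h14 hN0.le
        _ = 1 := inv_mul_cancel₀ hN0.ne'
    have hp0 : 0 ≤ (1 - c / 2) ^ J := pow_nonneg (by linarith) _
    have hrε : 0 ≤ r * ε := mul_nonneg hrp.le hε
    have h2nd : Real.sqrt ((1 - c / 2) ^ J * (c⁻¹ ^ 2 *
        ∑ b ∈ Finset.univ.filter (fun b : R => (b : X) ∈ B o),
          ‖(r : ℂ) * (G b b - m b)‖ ^ 2)) ≤ c⁻¹ * (r * ε) := by
      rw [← Real.sqrt_sq (mul_nonneg (inv_nonneg.2 hc.le) hrε)]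
      refine Real.sqrt_le_sqrt ?_
      calc (1 - c / 2) ^ J * (c⁻¹ ^ 2 *
            ∑ b ∈ Finset.univ.filter (fun b : R => (b : X) ∈ B o),
              ‖(r : ℂ) * (G b b - m b)‖ ^ 2)
          ≤ (1 - c / 2) ^ J * (c⁻¹ ^ 2 * (N * (r * ε) ^ 2)) :=
            mul_le_mul_of_nonneg_left (mul_le_mul_of_nonneg_left hsum1 (sq_nonneg _)) hp0
        _ = ((1 - c / 2) ^ J * N) * (c⁻¹ * (r * ε)) ^ 2 := by ring
        _ ≤ 1 * (c⁻¹ * (r * ε)) ^ 2 := mul_le_mul_of_nonneg_right hpow (sq_nonneg _)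
        _ = (c⁻¹ * (r * ε)) ^ 2 := one_mul _
    have h3rd : Real.sqrt ((c - c / 4)⁻¹ ^ 2 *
        ∑ b ∈ (Finset.univ.filter fun b : R => (b : X) ∈ B o)ᶜ,
          e o b ^ 2 * ‖(r : ℂ) * (G b b - m b)‖ ^ 2) ≤ 2 * c⁻¹ * (r * ε) := by
      have h15 : (c - c / 4)⁻¹ ≤ 2 * c⁻¹ := by
        have h16 : c - c / 4 = (3 / 4) * c := by ring
        rw [h16, mul_inv]
        have h17 : 0 < c⁻¹ := inv_pos.2 hc
        nlinarith
      have h18 : 0 ≤ (c - c / 4)⁻¹ := inv_nonneg.2 (by linarith)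
      rw [← Real.sqrt_sq (mul_nonneg (mul_nonneg zero_le_two (inv_nonneg.2 hc.le)) hrε)]
      refine Real.sqrt_le_sqrt ?_
      calc (c - c / 4)⁻¹ ^ 2 *
            ∑ b ∈ (Finset.univ.filter fun b : R => (b : X) ∈ B o)ᶜ,
              e o b ^ 2 * ‖(r : ℂ) * (G b b - m b)‖ ^ 2
          ≤ (2 * c⁻¹) ^ 2 * (r * ε) ^ 2 :=
            mul_le_mul (pow_le_pow_left₀ h18 h15 2) hsum2
              (Finset.sum_nonneg fun b _ => mul_nonneg (sq_nonneg _) (sq_nonneg _))
              (sq_nonneg _)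
        _ = (2 * c⁻¹ * (r * ε)) ^ 2 := by ring
    have h1st : (J : ℝ) / 2 * (ε / c₀ * (r * (m o).im)) ≤
        ((1 / c + 1) * (C₀ / c₀)) * (1 + Real.log N) * (r * ε) := by
      have hmo := (H.hm o o.2).2
      have h19 : (J : ℝ) / 2 ≤ (1 / c + 1) * (1 + Real.log N) := by
        have h20 : (J : ℝ) / 2 ≤ 1 / c * Real.log N + 1 / 2 := by
          have h21 : 2 / c * Real.log N = 2 * (1 / c * Real.log N) := by ring
          linarith
        have h22 : 0 ≤ 1 / c := by positivity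
        nlinarith
      have h23 : ε / c₀ * (r * (m o).im) ≤ (C₀ / c₀) * (r * ε) := by
        have h24 : ε / c₀ * (r * (m o).im) ≤ ε / c₀ * (r * C₀) :=
          mul_le_mul_of_nonneg_left (mul_le_mul_of_nonneg_left hmo hrp.le)
            (div_nonneg hε hc0.le)
        refine h24.trans (le_of_eq ?_)
        ring
      have h25 : 0 ≤ ε / c₀ * (r * (m o).im) :=
        mul_nonneg (div_nonneg hε hc0.le)
          (mul_nonneg hrp.le (hc0.le.trans (H.hm o o.2).1))
      have h26 : 0 ≤ (1 / c + 1) * (1 + Real.log N) := by positivity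
      calc (J : ℝ) / 2 * (ε / c₀ * (r * (m o).im))
          ≤ ((1 / c + 1) * (1 + Real.log N)) * ((C₀ / c₀) * (r * ε)) :=
            mul_le_mul h19 h23 h25 h26
        _ = _ := by ring
    have hfin : ‖u o‖ ≤ ((1 / c + 1) * (C₀ / c₀)) * (1 + Real.log N) * (r * ε) +
        c⁻¹ * (r * ε) + 2 * c⁻¹ * (r * ε) := by
      refine h1.trans ?_
      exact add_le_add (add_le_add h1st h2nd) h3rd
    refine hfin.trans ?_
    have h27 : 0 ≤ 3 / c * Real.log N * (r * ε) := by positivity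
    have h28 : r * (C₁ * (1 + Real.log N) * ε) -
        (((1 / c + 1) * (C₀ / c₀)) * (1 + Real.log N) * (r * ε) +
        c⁻¹ * (r * ε) + 2 * c⁻¹ * (r * ε)) = 3 / c * Real.log N * (r * ε) := by
      rw [hC₁]
      ring
    linarith
  have hδn : ∀ a, ‖δ a‖ ≤ C₁ * (1 + Real.log N) * ε := by
    intro a
    by_cases ha : a ∈ R
    · have h1 := hsup ⟨a, ha⟩
      have h2 : δ a = u ⟨a, ha⟩ / r := by
        rw [hδ]
        change ext0 R u a / r = _
        unfold ext0
        rw [dif_pos ha]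
      rw [h2, norm_div, Complex.norm_real, Real.norm_of_nonneg hrp.le, div_le_iff₀ hrp]
      linarith
    · have h2 : δ a = 0 := by
        rw [hδ]
        change ext0 R u a / r = _
        unfold ext0
        rw [dif_neg ha, zero_div]
      rw [h2, norm_zero]
      positivity
  refine ⟨δ, ?_, ?_, ?_⟩
  · intro a ha
    change ext0 R u a / r = _
    unfold ext0
    rw [dif_neg ha, zero_div]
  · intro a
    refine (hδn a).trans ?_
    have h1 : 0 ≤ (1 + Real.log N) * ε := by positivity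
    have h2 : 0 < C₁ * ((C₀ + 1) / c₀ ^ 2) := by positivity
    have h3 : C₁ ≤ 1 + C₁ + C₁ * ((C₀ + 1) / c₀ ^ 2) := by linarith
    have h4 := mul_le_mul_of_nonneg_right h3 h1
    linarith
  · intro a ha
    have h1 := hu ⟨a, ha⟩
    rw [ys_mulVec] at h1
    have h2 : ∑ b ∈ R, G a b ^ 2 * ext0 R u b = r * ∑ b ∈ R, G a b ^ 2 * δ b := by
      rw [Finset.mul_sum]
      refine Finset.sum_congr rfl fun b _ => ?_
      rw [hδ]
      change _ = (r : ℂ) * (G a b ^ 2 * (ext0 R u b / r))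
      field_simp
    have h3 : u ⟨a, ha⟩ = r * δ a := by
      rw [hδ]
      change _ = (r : ℂ) * (ext0 R u a / r)
      unfold ext0
      rw [dif_pos ha]
      field_simp
    change u ⟨a, ha⟩ - (r : ℂ) ^ 2 * ∑ b ∈ R, G a b ^ 2 * ext0 R u b =
      (r : ℂ) * (G a a - m a) at h1
    rw [h2, h3] at h1
    have h4 : δ a - (G a a - m a) = (r : ℂ) ^ 2 * ∑ b ∈ R, G a b ^ 2 * δ b := by
      have h5 : (r : ℂ) * (δ a - (G a a - m a)) =
          (r : ℂ) * ((r : ℂ) ^ 2 * ∑ b ∈ R, G a b ^ 2 * δ b) := by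
        linear_combination h1
      exact mul_left_cancel₀ hrc h5
    have h6 : ∑ b ∈ R, (s : ℂ) * G a b ^ 2 * δ b = (s : ℂ) * ∑ b ∈ R, G a b ^ 2 * δ b := by
      rw [Finset.mul_sum]
      exact Finset.sum_congr rfl fun b _ => by ring
    rw [h4, h6, ← sub_mul, norm_mul]
    have h7 : ‖(r : ℂ) ^ 2 - (s : ℂ)‖ = s - r ^ 2 := by
      rw [← Complex.ofReal_pow, ← Complex.ofReal_sub, Complex.norm_real, Real.norm_eq_abs,
        abs_sub_comm, abs_of_nonneg (by linarith)]
    rw [h7]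
    have h8 : s - r ^ 2 ≤ s * (ε / c₀) := by
      have h9 : s - r ^ 2 = r ^ 2 * (ε / c₀) := by
        rw [← hr2]
        ring
      rw [h9]
      exact mul_le_mul_of_nonneg_right hrs (div_nonneg hε hc0.le)
    have h10 : ‖∑ b ∈ R, G a b ^ 2 * δ b‖ ≤
        (∑ b ∈ R, ‖G a b‖ ^ 2) * (C₁ * (1 + Real.log N) * ε) := by
      refine (norm_sum_le _ _).trans ?_
      rw [Finset.sum_mul]
      refine Finset.sum_le_sum fun b _ => ?_
      rw [norm_mul, norm_pow]
      exact mul_le_mul_of_nonneg_left (hδn b) (sq_nonneg _)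
    have h11 : s * ∑ b ∈ R, ‖G a b‖ ^ 2 ≤ (C₀ + 1) / c₀ := by
      rw [le_div_iff₀ hc0]
      have h12 := ward_run H a ha
      have h13 : s * (∑ b ∈ R, ‖G a b‖ ^ 2) * c₀ ≤ ∑ b ∈ R, s * ‖G a b‖ ^ 2 * (m b).im := by
        rw [Finset.mul_sum, Finset.sum_mul]
        refine Finset.sum_le_sum fun b hb => ?_
        exact mul_le_mul_of_nonneg_left (H.hm b hb).1 (mul_nonneg H.hs.le (sq_nonneg _))
      have h14 := (H.hm a ha).2
      have h15 := H.hε.2
      linarith
    have hK : 0 ≤ C₁ * (1 + Real.log N) * ε := by positivity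
    calc (s - r ^ 2) * ‖∑ b ∈ R, G a b ^ 2 * δ b‖
        ≤ (s * (ε / c₀)) * ((∑ b ∈ R, ‖G a b‖ ^ 2) * (C₁ * (1 + Real.log N) * ε)) :=
          mul_le_mul h8 h10 (norm_nonneg _)
            (mul_nonneg H.hs.le (div_nonneg hε hc0.le))
      _ = (s * ∑ b ∈ R, ‖G a b‖ ^ 2) * ((ε / c₀) * (C₁ * (1 + Real.log N) * ε)) := by ring
      _ ≤ ((C₀ + 1) / c₀) * ((ε / c₀) * (C₁ * (1 + Real.log N) * ε)) :=
          mul_le_mul_of_nonneg_right h11 (mul_nonneg (div_nonneg hε hc0.le) hK)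
      _ = (C₁ * ((C₀ + 1) / c₀ ^ 2)) * ((1 + Real.log N) * ε ^ 2) := by ring
      _ ≤ (1 + C₁ + C₁ * ((C₀ + 1) / c₀ ^ 2)) * ((1 + Real.log N) * ε ^ 2) := by
          refine mul_le_mul_of_nonneg_right (by linarith) (by positivity)
      _ = _ := by ring

end Pool.Agent.AGU.H19
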